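import Pool.Agent.T9h16.QI.Spec

set_option autoImplicit false

/-!
# The complement of a circuit: one more gate, a NOT gate on the test of the output
-/

namespace Pool.Agent.T9h73.QI

open Pool.Agent.HC34 (srcs IsLevel DepthLE)
open Pool.Agent.T9h35.RW
open Pool.Agent.T9h16.QI

theorem stCompl : StCompl := by
  intro ι f d D C hfan hdep
  obtain ⟨lev, hlev, hL⟩ := hdep
  refine ⟨⟨C.gates ++ [Gate.other [C.out] (fun l => !(l.headD false))], (Src.gate C.gates.length, 1)⟩,
    ?_, ?_, ?_, ?_, ?_⟩
  · intro g hg
    rcases List.mem_append.1 hg with h | h
    · have h1 := hfan g h
      cases g with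
      | mono args φ => exact h1
      | other tests φ => exact le_trans h1 (le_max_left _ _)
    · rw [List.mem_singleton] at h
      subst h
      show [C.out].length ≤ max d 1
      simp
  · simp [Circuit.size]
  · simp [Circuit.numTests, Gate.tests]
  · refine ⟨fun j => if j < C.gates.length then lev j else D, ?_, ?_⟩
    · intro j hj
      show (if j < C.gates.length then lev j else D) < D + 1
      split_ifs with h
      · exact lt_trans (hlev j h) (Nat.lt_succ_self D)
      · exact Nat.lt_succ_self D
    · intro i j g hg hi hij
      show (if i < C.gates.length then lev i else D) < (if j < C.gates.length then lev j else D)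
      by_cases hj : j < C.gates.length
      · rw [if_pos (lt_trans hij hj), if_pos hj]
        refine hL i j g ?_ hi hij
        have hg' : (C.gates ++ [Gate.other [C.out] (fun l => !(l.headD false))])[j]? = some g := hg
        rwa [List.getElem?_append_left hj] at hg'
      · have hj2 : j < (C.gates ++ [Gate.other [C.out] (fun l => !(l.headD false))]).length := by
          by_contra hcon
          have hg' : (C.gates ++ [Gate.other [C.out] (fun l => !(l.headD false))])[j]? = some g := hg
          rw [List.getElem?_eq_none (not_lt.1 hcon)] at hg'
          exact absurd hg' (by simp)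
        rw [List.length_append, List.length_singleton] at hj2
        have hi2 : i < C.gates.length := by omega
        rw [if_pos hi2, if_neg hj]
        exact hlev i hi2
  · intro x
    show Test.eval x (runGates x (C.gates ++ [Gate.other [C.out] (fun l => !(l.headD false))]))
      (Src.gate C.gates.length, 1) = !Test.eval x (runGates x C.gates) C.out
    rw [runGates_append]
    have hlen := length_runGates x C.gates
    generalize runGates x C.gates = vals at hlen ⊢
    have h1 : (vals ++ [(Gate.other [C.out] (fun l => !(l.headD false))).eval x vals]).getD
        C.gates.length 0 = (Gate.other [C.out] (fun l => !(l.headD false))).eval x vals :=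
      getD_append_eq hlen.symm
    have h2 : Test.eval x (vals ++ [(Gate.other [C.out] (fun l => !(l.headD false))).eval x vals])
        (Src.gate C.gates.length, 1) =
        decide ((1 : ℝ) ≤ (Gate.other [C.out] (fun l => !(l.headD false))).eval x vals) := by
      have h3 : ∀ u v : ℝ, u = v → decide ((1 : ℝ) ≤ u) = decide ((1 : ℝ) ≤ v) := by
        intro u v huv
        rw [huv]
      exact h3 _ _ h1
    rw [h2]
    cases h : Test.eval x vals C.out <;> simp [Gate.eval, h]

end Pool.Agent.T9h73.QI
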